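import Pool.Agent.Helper38.RS.Goals2

/-!
# Packet RS-DUAL (MP_fc6b1e_nt)
-/

namespace Pool.Agent.Helper90.RS

open NumberField Polynomial Module IsDedekindDomain TensorProduct Pool.Agent.Helper51.SigLeo
  Pool.Agent.Helper38.RS WithZero

section val

variable {M : Type} [Field M] [NumberField M]

theorem ordv_mul (v : HeightOneSpectrum (𝓞 M)) {x y : M} (hx : x ≠ 0) (hy : y ≠ 0) :
    ordv v (x * y) = ordv v x + ordv v y := by
  unfold ordv
  rw [map_mul, WithZero.log_mul ((Valuation.ne_zero_iff _).2 hx) ((Valuation.ne_zero_iff _).2 hy)]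
  ring

theorem ordv_inv (v : HeightOneSpectrum (𝓞 M)) (x : M) : ordv v x⁻¹ = - ordv v x := by
  unfold ordv
  rw [map_inv₀, WithZero.log_inv]

theorem ordv_eq_zero_iff (v : HeightOneSpectrum (𝓞 M)) {x : M} (hx : x ≠ 0) :
    ordv v x = 0 ↔ v.valuation M x = 1 := by
  unfold ordv
  have h0 : v.valuation M x ≠ 0 := (Valuation.ne_zero_iff _).2 hx
  constructor
  · intro h
    have h1 : WithZero.log (v.valuation M x) = 0 := by omega
    rw [← WithZero.exp_log h0, h1, WithZero.exp_zero]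
  · intro h
    rw [h, WithZero.log_one, neg_zero]

/-- The primes where the valuation of an integer is not `1`. -/
theorem finite_lt_one (r : 𝓞 M) (hr : r ≠ 0) :
    {v : HeightOneSpectrum (𝓞 M) | v.valuation M (r : M) < 1}.Finite := by
  have h := Ideal.finite_factors (R := 𝓞 M) (I := Ideal.span {r})
    (by simpa only [Submodule.zero_eq_bot, ne_eq, Ideal.span_singleton_eq_bot] using hr)
  refine h.subset ?_
  intro v hv
  exact (v.valuation_lt_one_iff_dvd (K := M) r).1 hv

theorem finite_ordv (x : M) (hx : x ≠ 0) :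
    {v : HeightOneSpectrum (𝓞 M) | ordv v x ≠ 0}.Finite := by
  have h1 := HeightOneSpectrum.Support.finite (R := 𝓞 M) x
  have h2 := HeightOneSpectrum.Support.finite (R := 𝓞 M) x⁻¹
  refine (h1.union h2).subset ?_
  intro v hv
  have hv' : v.valuation M x ≠ 1 := fun h ↦ hv ((ordv_eq_zero_iff v hx).2 h)
  rcases lt_or_gt_of_ne hv' with h | h
  · right
    show 1 < v.valuation M x⁻¹
    rw [map_inv₀]
    exact (one_lt_inv₀ (zero_lt_iff.2 ((Valuation.ne_zero_iff _).2 hx))).2 h
  · left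
    exact h

end val

section conj

variable {K M : Type} [Field K] [Field M] [NumberField M] [Algebra K M]

theorem intVal_conj {R : Type} [CommRing R] [IsDedekindDomain R] (e : R ≃+* R)
    (v w : HeightOneSpectrum R) (hw : w.asIdeal = v.asIdeal.map (e : R →+* R)) (r : R) :
    w.intValuation (e r) = v.intValuation r := by
  by_cases hr : r = 0
  · subst hr; simp
  have her : e r ≠ 0 := by simpa using hr
  have key : ∀ n : ℕ, w.intValuation (e r) ≤ exp (-(n : ℤ)) ↔
      v.intValuation r ≤ exp (-(n : ℤ)) := by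
    intro n
    rw [HeightOneSpectrum.intValuation_le_pow_iff_mem, HeightOneSpectrum.intValuation_le_pow_iff_mem,
      hw, ← Ideal.map_pow]
    constructor
    · intro h
      have h2 := (Ideal.mem_map_iff_of_surjective (e : R →+* R) e.surjective).1 h
      obtain ⟨s, hs, hse⟩ := h2
      have : s = r := e.injective hse
      rwa [← this]
    · intro h
      exact Ideal.mem_map_of_mem (e : R →+* R) h
  have h1 := (w.intValuation_if_neg her)
  have h2 := (v.intValuation_if_neg hr)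
  apply le_antisymm
  · have := (key _).2 h2.le
    rwa [← h2] at this
  · have := (key _).1 h1.le
    rwa [← h1] at this

theorem exists_conj (g : M ≃ₐ[K] M) (v : HeightOneSpectrum (𝓞 M)) :
    ∃ w : HeightOneSpectrum (𝓞 M), ∀ y : M, w.valuation M (g y) = v.valuation M y := by
  let e : 𝓞 M ≃+* 𝓞 M := RingOfIntegers.mapRingEquiv (g : M ≃+* M)
  let w : HeightOneSpectrum (𝓞 M) := HeightOneSpectrum.equivOfRingEquiv e v
  have hw : w.asIdeal = v.asIdeal.map (e : 𝓞 M →+* 𝓞 M) := by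
    show v.asIdeal.comap (e.symm : 𝓞 M →+* 𝓞 M) = _
    exact Ideal.comap_symm e
  refine ⟨w, fun y ↦ ?_⟩
  obtain ⟨⟨n, d⟩, rfl⟩ := IsLocalization.mk'_surjective (nonZeroDivisors (𝓞 M)) y
  have h1 : ∀ r : 𝓞 M, w.valuation M (g (algebraMap (𝓞 M) M r)) =
      v.valuation M (algebraMap (𝓞 M) M r) := by
    intro r
    have h2 : g (algebraMap (𝓞 M) M r) = algebraMap (𝓞 M) M (e r) := rfl
    rw [h2, HeightOneSpectrum.valuation_of_algebraMap, HeightOneSpectrum.valuation_of_algebraMap,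
      intVal_conj e v w hw]
  show w.valuation M (g (IsLocalization.mk' M n d)) = v.valuation M (IsLocalization.mk' M n d)
  rw [IsFractionRing.mk'_eq_div, map_div₀, map_div₀, map_div₀, h1, h1]

theorem conj_unique {w w' : HeightOneSpectrum (𝓞 M)}
    (h : ∀ y : M, w.valuation M y = w'.valuation M y) : w = w' :=
  HeightOneSpectrum.eq_of_valuation_isEquiv_valuation (K := M) (by
    have : w.valuation M = w'.valuation M := Valuation.ext h
    rw [this])

theorem conjP_refl (v : HeightOneSpectrum (𝓞 M)) : ConjP K v v := ⟨1, fun _ ↦ rfl⟩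

theorem conjP_symm {w v : HeightOneSpectrum (𝓞 M)} (h : ConjP K w v) : ConjP K v w := by
  obtain ⟨g, hg⟩ := h
  refine ⟨g⁻¹, fun y ↦ ?_⟩
  rw [← hg (g⁻¹ y)]
  congr 1
  exact AlgEquiv.apply_symm_apply g y

theorem conjP_trans {u v w : HeightOneSpectrum (𝓞 M)} (h1 : ConjP K u v) (h2 : ConjP K v w) :
    ConjP K u w := by
  obtain ⟨g, hg⟩ := h1
  obtain ⟨h, hh⟩ := h2
  refine ⟨g * h, fun y ↦ ?_⟩
  rw [← hh y, ← hg (h y)]
  rfl

theorem freeP_conj {w v : HeightOneSpectrum (𝓞 M)} (h : ConjP K w v) (hv : FreeP K v) :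
    FreeP K w := by
  obtain ⟨g, hg⟩ := h
  intro f hf
  have h1 : g⁻¹ * f * g = 1 := by
    apply hv
    intro y
    rw [← hg]
    have : g ((g⁻¹ * f * g) y) = f (g y) := by
      show g (g.symm (f (g y))) = f (g y)
      exact AlgEquiv.apply_symm_apply g _
    rw [this, hf, hg]
  have h2 : f = g * (g⁻¹ * f * g) * g⁻¹ := by group
  rw [h2, h1]; group

/-- A finite stable set of primes with trivial decomposition groups has `m s₀` elements. -/
theorem dvd_ncard [NumberField K] [IsGalois K M] (m : ℕ) (hm : finrank K M = m)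
    (F : Set (HeightOneSpectrum (𝓞 M))) (hF : F.Finite)
    (hst : ∀ w ∈ F, ∀ v, ConjP K v w → v ∈ F) (hfree : ∀ w ∈ F, FreeP K w) :
    ∃ s₀, F.ncard = m * s₀ := by
  classical
  haveI : FiniteDimensional K M := inferInstance
  let r : Setoid (HeightOneSpectrum (𝓞 M)) :=
    ⟨ConjP K, conjP_refl, conjP_symm, conjP_trans⟩
  have hcard : Fintype.card (M ≃ₐ[K] M) = m := by
    rw [← hm, ← Nat.card_eq_fintype_card]
    exact IsGalois.card_aut_eq_finrank K M
  let F' := hF.toFinset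
  refine ⟨(F'.image (Quotient.mk r)).card, ?_⟩
  rw [Set.ncard_eq_toFinset_card F hF]
  rw [Finset.card_eq_sum_card_image (Quotient.mk r) F', mul_comm, ← smul_eq_mul, ← Finset.sum_const]
  refine Finset.sum_congr rfl ?_
  intro c hc
  obtain ⟨w, hw, rfl⟩ := Finset.mem_image.1 hc
  have hwF : w ∈ F := hF.mem_toFinset.1 hw
  choose f hf using fun g : M ≃ₐ[K] M ↦ exists_conj g w
  have hinj : Function.Injective f := by
    intro g h hgh
    have h1 : g⁻¹ * h = 1 := by
      apply hfree w hwF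
      intro y
      have h2 := hf g ((g⁻¹ * h) y)
      have h3 : g ((g⁻¹ * h) y) = h y := by
        show g (g.symm (h y)) = h y
        exact AlgEquiv.apply_symm_apply g _
      rw [← h2, h3, hgh, hf h]
    exact (inv_mul_eq_one.1 h1)
  rw [← hcard, ← Finset.card_univ, ← Finset.card_image_of_injective Finset.univ hinj]
  congr 1
  ext v
  simp only [Finset.mem_filter, Finset.mem_image, Finset.mem_univ, true_and]
  constructor
  · rintro ⟨_, hv2⟩
    have h3 : ConjP K v w := Quotient.exact hv2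
    obtain ⟨g, hg⟩ := h3
    refine ⟨g, ?_⟩
    apply conj_unique
    intro y
    have h4 := hf g (g.symm y)
    have h5 := hg (g.symm y)
    rw [AlgEquiv.apply_symm_apply] at h4 h5
    rw [h4, h5]
  · rintro ⟨g, rfl⟩
    have h3 : ConjP K (f g) w := ⟨g, hf g⟩
    exact ⟨hF.mem_toFinset.2 (hst w hwF _ h3), Quotient.sound h3⟩

end conj

theorem s_dual (h1 : S_SUB) (h2 : S_SEX) (h3 : S_UPB) (h4 : S_LOB) (h5 : S_LAM) (h6 : S_CHR) :
    Pool.Agent.Helper38.RS.S_DUAL := by
  intro k _ _ _ _ hk L K M _ _ _ _ _ _ _ m δ ζ Φ P hPhi hord hfr T hT hd a ha0 ha8 hex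
  obtain ⟨x, hx, hxns⟩ := hex
  set aM : M := algebraMap K M a with haM
  have haR : aM = ((algebraMap (𝓞 K) (𝓞 M) a : 𝓞 M) : M) := by
    rw [haM]
    exact (IsScalarTower.algebraMap_apply (𝓞 K) K M a).symm.trans
      (IsScalarTower.algebraMap_apply (𝓞 K) (𝓞 M) M a)
  have haR0 : (algebraMap (𝓞 K) (𝓞 M) a : 𝓞 M) ≠ 0 := by
    intro h
    apply ha0
    have h7 : Function.Injective (algebraMap (𝓞 K) (𝓞 M)) :=
      FaithfulSMul.algebraMap_injective (𝓞 K) (𝓞 M)
    exact h7 (by rw [h, map_zero])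
  have haM0 : aM ≠ 0 := by
    rw [haR]
    exact fun h ↦ haR0 (RingOfIntegers.coe_eq_zero_iff.1 h)
  obtain ⟨S, hSf, hZS, hSst, hSn⟩ := h2 K M
    ({w | w.valuation M ((2 : 𝓞 M) : M) < 1} ∪ {w | w.valuation M aM < 1})
    ((finite_lt_one 2 two_ne_zero).union (by
      rw [haR]; exact finite_lt_one _ haR0))
  have hSS : SSet K M aM S := by
    refine ⟨hSf, hSst, ?_, ?_⟩
    · intro w hw
      apply hZS
      left
      have h7 : ((2 : 𝓞 M) : M) = 2 := map_ofNat (algebraMap (𝓞 M) M) 2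
      show w.valuation M ((2 : 𝓞 M) : M) < 1
      rw [h7]
      exact hw
    · intro w hw
      apply hZS
      right
      have h7 : w.valuation M aM ≠ 1 := by
        intro h
        apply hw
        rw [(ordv_eq_zero_iff w haM0).2 h]
        exact Even.zero
      have h8 : w.valuation M aM ≤ 1 := by
        rw [haR]; exact w.valuation_le_one _
      exact lt_of_le_of_ne h8 h7
  obtain ⟨s₀, hs₀⟩ := dvd_ncard (K := K) m hfr {w ∈ S | FreeP K w} (hSf.subset fun w hw ↦ hw.1)
    (fun w hw v hv ↦ ⟨hSst w hw.1 v hv, freeP_conj hv hw.2⟩) (fun w hw ↦ hw.2)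
  obtain ⟨G, hG, hGsq, hGst⟩ := h1 k L K M δ T (a : K) S hSS
  have hδm : δ ^ m = 1 := by rw [← hord]; exact pow_orderOf_eq_one δ
  have hUmem : ∀ y : Mˣ, y ∈ S.unit M ↔ ∀ v, v ∉ S → v.valuation M (y : M) = 1 := by
    intro y; rfl
  obtain ⟨z, hz⟩ := hSn (Finsupp.onFinset ((finite_ordv (x : M) x.ne_zero).toFinset)
    (fun w ↦ ordv w (x : M) / 2) (by
      intro w hw
      rw [Set.Finite.mem_toFinset]
      intro h
      apply hw
      show ordv w (x : M) / 2 = 0
      rw [h]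
      rfl))
  have hx0S : ∀ w, w ∉ S → ordv w ((x : M) * ((z : M) ^ 2)⁻¹) = 0 := by
    intro w hw
    have hev : Even (ordv w aM) := by
      by_contra h
      exact hw (hSS.odd w h)
    have h7 := hx.even w hev
    have h8 : ordv w (z : M) = ordv w (x : M) / 2 := hz w hw
    rw [ordv_mul w x.ne_zero (inv_ne_zero (pow_ne_zero 2 z.ne_zero)), ordv_inv, pow_two,
      ordv_mul w z.ne_zero z.ne_zero, h8]
    obtain ⟨t, ht⟩ := h7
    rw [ht]
    omega
  have hxG : x ∈ G := by
    rw [hG]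
    exact ⟨fun w _ hw ↦ hx.even w hw, fun w _ hw ↦ hx.tame w hw, hx.sig⟩
  obtain ⟨lam, hlU, hlG, hlP, hlne⟩ := h5 K M m δ P hPhi.odd hδm hPhi.irr hPhi.dvdP
    (S.unit M) G hGsq hGst
    (by
      intro y hy
      rw [hUmem] at hy ⊢
      intro v hv
      obtain ⟨w, hw⟩ := exists_conj (K := K) δ⁻¹ v
      have hwv : ∀ u : M, w.valuation M u = v.valuation M (δ u) := by
        intro u
        have h7 := hw (δ u)
        have h8 : (δ⁻¹ : M ≃ₐ[K] M) (δ u) = u := AlgEquiv.symm_apply_apply δ u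
        rw [h8] at h7
        exact h7
      have hwS : w ∉ S := by
        intro h
        apply hv
        exact hSst w h v ⟨δ, fun u ↦ (hwv u).symm⟩
      show v.valuation M (δ (y : M)) = 1
      rw [← hwv]
      exact hy w hwS)
    (2 ^ (P.natDegree * (T.ncard + s₀)))
    (fun F hF hF2 ↦ h3 k K M m T.ncard s₀ δ ζ Φ P hPhi hord hfr hd S hSf hSst hs₀ F hF hF2)
    (by
      obtain ⟨F, hFc, hF1, hF2⟩ := h4 k hk L K M m s₀ δ ζ Φ P hPhi hord hfr T hT a ha0 ha8 S hSS hs₀
      exact ⟨F, hFc, fun y hy ↦ (hG _).2 (hF1 y hy),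
        fun y hy y' hy' hne h ↦ hF2 y hy y' hy' hne ((hG _).1 h)⟩)
    (by
      refine ⟨x * (z ^ 2)⁻¹, ?_, ?_, ?_, ?_⟩
      · rw [hUmem]
        intro v hv
        have h7 := hx0S v hv
        have h8 : ((x * (z ^ 2)⁻¹ : Mˣ) : M) = (x : M) * ((z : M) ^ 2)⁻¹ := by simp
        rw [h8]
        exact (ordv_eq_zero_iff v (mul_ne_zero x.ne_zero
          (inv_ne_zero (pow_ne_zero 2 z.ne_zero)))).1 h7
      · exact G.mul_mem hxG (G.inv_mem (hGsq _ ⟨z, rfl⟩))
      · obtain ⟨y, hy⟩ := hx.pol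
        refine ⟨y * (pol P δ z)⁻¹, ?_⟩
        rw [map_mul, map_inv, map_pow, hy, mul_pow, inv_pow]
      · rintro ⟨y, hy⟩
        apply hxns
        refine ⟨y * z, ?_⟩
        rw [mul_pow, ← hy]
        simp)
  obtain ⟨𝔪, ψ, hψ, -, hi, hiii⟩ := h6 k L K M m δ P hord hfr T a ha0 ha8 S hSS hSn lam hlU
    (fun y hy ↦ hlG y ((hG y).2 hy)) hlP hlne
  refine ⟨S, 𝔪, ψ, hSf, hψ, hi, ?_⟩
  intro 𝔮 hq hfq y hy1 hy2 hy3
  refine hiii 𝔮 hq hfq y ⟨?_, fun w _ hw ↦ hy2 w hw, hy3⟩ ?_
  · intro w hw hev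
    refine hy1 w hev ?_
    intro hc
    exact hq (hSst w hw 𝔮 (conjP_symm hc))
  · intro w hw hnc
    refine hy1 w ?_ hnc
    by_contra h
    exact hw (hSS.odd w h)

end Pool.Agent.Helper90.RS
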